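import Pool.Agent.Helper99.SC.GeoStmts

/-!
# Numbers of places
-/

set_option autoImplicit false

namespace Pool.Agent.Helper99.SC.NumMod

/-- comparison of mixed radix numbers -/
theorem mixed_lt {K r c l r' c' l' : ℕ} (hc : c < K) (hc' : c' < K) (hl : l < 16)
    (hl' : l' < 16) : (r * K + c) * 16 + l < (r' * K + c') * 16 + l' ↔
      r < r' ∨ (r = r' ∧ (c < c' ∨ (c = c' ∧ l < l'))) := by
  rcases lt_trichotomy r r' with h | h | h
  · have h1 : r * K + K ≤ r' * K := by
      calc r * K + K = (r + 1) * K := by ring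
        _ ≤ r' * K := Nat.mul_le_mul_right K h
    constructor
    · intro _
      exact Or.inl h
    · intro _
      omega
  · subst h
    constructor
    · intro h
      right
      refine ⟨rfl, ?_⟩
      omega
    · rintro (h | ⟨-, h⟩)
      · exact absurd h (lt_irrefl _)
      · omega
  · have h1 : r' * K + K ≤ r * K := by
      calc r' * K + K = (r' + 1) * K := by ring
        _ ≤ r * K := Nat.mul_le_mul_right K h
    constructor
    · intro h2
      omega
    · rintro (h2 | ⟨h2, -⟩) <;> omega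

/-- the physical column -/
def col (K : ℕ) (a : Pl) : ℕ := if a.2.1 = 1 ∨ a.2.1 = 3 then K - 1 - a.2.2.1 else a.2.2.1

theorem num_eq (K : ℕ) (a : Pl) :
    num K a = ((4 * a.1 + a.2.1) * K + col K a) * 16 + a.2.2.2 := rfl

theorem col_lt {K L : ℕ} {a : Pl} (ha : Pl.Ok K L a) : col K a < K := by
  obtain ⟨h1, h2, h3, h4⟩ := ha
  unfold col
  split_ifs <;> omega

theorem plt_iff {K L : ℕ} {a b : Pl} (ha : Pl.Ok K L a) (hb : Pl.Ok K L b) :
    plt a b ↔ num K a < num K b := by
  rw [num_eq, num_eq, mixed_lt (col_lt ha) (col_lt hb) ha.2.2.2 hb.2.2.2]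
  obtain ⟨i, ρ, k, l⟩ := a
  obtain ⟨i', ρ', k', l'⟩ := b
  obtain ⟨h1, h2, h3, h4⟩ := ha
  obtain ⟨h1', h2', h3', h4'⟩ := hb
  simp only at h1 h2 h3 h4 h1' h2' h3' h4'
  simp only [plt, col]
  by_cases hρ : ρ = ρ'
  · subst hρ
    by_cases hf : ρ = 1 ∨ ρ = 3
    · simp only [hf, if_true, true_and, not_true_eq_false, false_and, false_or]
      omega
    · simp only [hf, if_false, false_and, not_false_eq_true, true_and, false_or]
      omega
  · have h5 : 4 * i + ρ ≠ 4 * i' + ρ' := by omega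
    constructor
    · rintro (h | ⟨rfl, h | ⟨h, -⟩⟩)
      · left; omega
      · left; omega
      · exact absurd h hρ
    · rintro (h | ⟨h, -⟩)
      · rcases lt_trichotomy i i' with h6 | rfl | h6
        · exact Or.inl h6
        · exact Or.inr ⟨rfl, Or.inl (by omega)⟩
        · omega
      · exact absurd h h5

theorem not_plt_both {K L : ℕ} {a b : Pl} (ha : Pl.Ok K L a) (hb : Pl.Ok K L b)
    (h1 : ¬ plt a b) (h2 : ¬ plt b a) : a = b := by
  obtain ⟨i, ρ, k, l⟩ := a
  obtain ⟨i', ρ', k', l'⟩ := b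
  simp only [plt, not_or, not_and] at h1 h2
  have hi : i = i' := by omega
  subst hi
  have hρ : ρ = ρ' := by
    have h3 := (h1.2 rfl).1
    have h4 := (h2.2 rfl).1
    omega
  subst hρ
  have h5 := (h1.2 rfl).2 rfl
  have h6 := (h2.2 rfl).2 rfl
  have hk : k = k' := by
    by_cases hf : ρ = 1 ∨ ρ = 3
    · have h7 := h5.1 hf
      have h8 := h6.1 hf
      omega
    · have h7 := h5.2.1 (not_or.1 hf)
      have h8 := h6.2.1 (not_or.1 hf)
      omega
  subst hk
  have hl : l = l' := by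
    have h7 := h5.2.2 rfl
    have h8 := h6.2.2 rfl
    omega
  subst hl
  rfl

theorem num_lt {K L : ℕ} {a : Pl} (ha : Pl.Ok K L a) : num K a < (L + 2) * 4 * K * 16 := by
  have hc := col_lt ha
  rw [num_eq]
  obtain ⟨h1, h2, h3, h4⟩ := ha
  have h5 : (4 * a.1 + a.2.1) * K + K ≤ (L + 2) * 4 * K := by
    calc (4 * a.1 + a.2.1) * K + K = (4 * a.1 + a.2.1 + 1) * K := by ring
      _ ≤ (L + 2) * 4 * K := Nat.mul_le_mul_right K (by omega)
  omega

theorem exists_num {K L : ℕ} (hK : 0 < K) {q : ℕ} (hq : q < (L + 2) * 4 * K * 16) :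
    ∃ a, Pl.Ok K L a ∧ num K a = q := by
  have h1 : q / 16 < (L + 2) * 4 * K := Nat.div_lt_of_lt_mul (by linarith)
  have h2 : q / 16 / K < (L + 2) * 4 := Nat.div_lt_of_lt_mul (by linarith)
  have h3 : q / 16 % K < K := Nat.mod_lt _ hK
  set r := q / 16 / K with hr
  set c := q / 16 % K with hc
  refine ⟨(r / 4, r % 4, if r % 4 = 1 ∨ r % 4 = 3 then K - 1 - c else c, q % 16), ?_, ?_⟩
  · refine ⟨?_, Nat.mod_lt _ (by norm_num), ?_, Nat.mod_lt _ (by norm_num)⟩
    · show r / 4 < L + 2
      omega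
    · show (if r % 4 = 1 ∨ r % 4 = 3 then K - 1 - c else c) < K
      split_ifs <;> omega
  · rw [num_eq]
    have h4 : col K (r / 4, r % 4, if r % 4 = 1 ∨ r % 4 = 3 then K - 1 - c else c, q % 16) = c := by
      simp only [col]
      split_ifs <;> omega
    rw [h4]
    show ((4 * (r / 4) + r % 4) * K + c) * 16 + q % 16 = q
    have h5 : 4 * (r / 4) + r % 4 = r := by omega
    rw [h5]
    have h6 : r * K + c = q / 16 := by
      rw [hr, hc]
      exact Nat.div_add_mod' (q / 16) K
    rw [h6]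
    omega

end Pool.Agent.Helper99.SC.NumMod

namespace Pool.Agent.Helper99.SC

theorem sg_num : M_num := by
  intro K L hK
  refine ⟨fun a b ha hb => NumMod.plt_iff ha hb, ?_, fun a ha => NumMod.num_lt ha,
    fun q hq => NumMod.exists_num hK hq, ?_⟩
  · intro a b ha hb h
    apply NumMod.not_plt_both ha hb
    · rw [NumMod.plt_iff ha hb]; omega
    · rw [NumMod.plt_iff hb ha]; omega
  · intro a b c d ha hb hc hd
    unfold PCross btw outs Cross
    rw [NumMod.plt_iff ha hc, NumMod.plt_iff hc hb, NumMod.plt_iff hb hc, NumMod.plt_iff hc ha,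
      NumMod.plt_iff hd ha, NumMod.plt_iff hd hb, NumMod.plt_iff ha hd, NumMod.plt_iff hb hd]
    omega

end Pool.Agent.Helper99.SC
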