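import Pool.Agent.Helper99.SC.GeoStmts

/-!
# Runs of a program and sequences of rows
-/

set_option autoImplicit false

namespace Pool.Agent.Helper99.SC.RunMod

theorem stp_of_stpK {K : ℕ} {o : Op} (ho : o.Valid K) {x y : ℕ → Bool} (h : StpK K o x y) :
    Stp o (fun j => if j < K then x j else false) (fun j => if j < K then y j else false) := by
  obtain ⟨c, k⟩ := o
  obtain ⟨h4, hk, h1, h2⟩ := ho
  simp only at h4 hk h1 h2
  rcases c with _ | _ | _ | c
  · -- code 0
    have h' : ∀ j < K, j ≠ k → y j = x j := h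
    refine ⟨y k, ?_⟩
    funext j
    by_cases hjk : j = k
    · subst hjk
      simp [hk]
    · rw [Function.update_of_ne hjk]
      by_cases hj : j < K
      · simp [hj, h' j hj hjk]
      · simp [hj]
  · -- code 1
    have h' : (∀ j < K, y j = x j) ∧ x k = x (k + 1) := h
    refine ⟨?_, ?_⟩
    · funext j
      by_cases hj : j < K
      · simp [hj, h'.1 j hj]
      · simp [hj]
    · have h1' := h1 rfl
      simp [hk, h1', h'.2]
  · -- code 2
    have h' : (∀ j < K, j ≠ k → y j = x j) ∧ ¬ (x k = x (k - 1) ∧ y k = x (k - 1)) := h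
    have hk1 : k - 1 < K := by omega
    refine ⟨y k, ?_, ?_⟩
    · funext j
      by_cases hjk : j = k
      · subst hjk
        simp [hk]
      · rw [Function.update_of_ne hjk]
        by_cases hj : j < K
        · simp [hj, h'.1 j hj hjk]
        · simp [hj]
    · simp only [hk, hk1, if_true]
      exact h'.2
  · -- code 3
    have h' : (∀ j < K, y j = x j) ∧ x k = false := h
    refine ⟨?_, ?_⟩
    · funext j
      by_cases hj : j < K
      · simp [hj, h'.1 j hj]
      · simp [hj]
    · simp [hk, h'.2]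

theorem stpK_of_stp (K : ℕ) {o : Op} {x y : ℕ → Bool} (h : Stp o x y) : StpK K o x y := by
  obtain ⟨c, k⟩ := o
  rcases c with _ | _ | _ | c
  · obtain ⟨b, hb⟩ : ∃ b, y = Function.update x k b := h
    show ∀ j < K, j ≠ k → y j = x j
    intro j _ hjk
    rw [hb, Function.update_of_ne hjk]
  · obtain ⟨h1, h2⟩ : y = x ∧ x k = x (k + 1) := h
    exact ⟨fun j _ => by rw [h1], h2⟩
  · obtain ⟨b, hb, h2⟩ : ∃ b, y = Function.update x k b ∧ ¬ (x k = x (k - 1) ∧ b = x (k - 1)) := h
    refine ⟨fun j _ hjk => by rw [hb, Function.update_of_ne hjk], ?_⟩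
    have : y k = b := by rw [hb, Function.update_self]
    rw [this]
    exact h2
  · obtain ⟨h1, h2⟩ : y = x ∧ x k = false := h
    exact ⟨fun j _ => by rw [h1], h2⟩

theorem run_of_seq : ∀ (l : List Op) (Z : ℕ → ℕ → Bool),
    (∀ i < l.length, Stp (l.getD i (9, 0)) (Z i) (Z (i + 1))) → Run l (Z 0) (Z l.length)
  | [], Z, _ => rfl
  | o :: l, Z, h => by
    refine ⟨Z 1, ?_, ?_⟩
    · have := h 0 (by simp)
      simpa using this
    · have := run_of_seq l (fun i => Z (i + 1)) (fun i hi => by
        have := h (i + 1) (by simpa using hi)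
        simpa using this)
      simpa using this

theorem seq_of_run : ∀ (l : List Op) (x y : ℕ → Bool), Run l x y →
    ∃ Z : ℕ → ℕ → Bool, Z 0 = x ∧ ∀ i < l.length, Stp (l.getD i (9, 0)) (Z i) (Z (i + 1))
  | [], x, _, _ => ⟨fun _ => x, rfl, fun i hi => absurd hi (by simp)⟩
  | o :: l, x, y, h => by
    obtain ⟨z, hz, hl⟩ := h
    obtain ⟨Z, hZ0, hZ⟩ := seq_of_run l z y hl
    refine ⟨fun i => match i with
      | 0 => x
      | i + 1 => Z i, rfl, ?_⟩
    intro i hi
    rcases i with _ | i
    · simpa [hZ0] using hz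
    · have := hZ i (by simpa using hi)
      simpa using this

end Pool.Agent.Helper99.SC.RunMod

namespace Pool.Agent.Helper99.SC

theorem sg_run : M_run := by
  intro K ops hv
  constructor
  · rintro ⟨X, hX⟩
    refine ⟨_, _, RunMod.run_of_seq ops (fun i j => if j < K then X i j else false) ?_⟩
    intro i hi
    refine RunMod.stp_of_stpK (hv _ ?_) (hX i hi)
    rw [List.getD_eq_getElem _ _ hi]
    exact List.getElem_mem hi
  · rintro ⟨x, y, h⟩
    obtain ⟨Z, -, hZ⟩ := RunMod.seq_of_run ops x y h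
    exact ⟨Z, fun i hi => RunMod.stpK_of_stp K (hZ i hi)⟩

end Pool.Agent.Helper99.SC
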